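import Pool.Agent.Helper37.KD.St.B2
import Pool.Agent.Helper37.KD.St.B4
import Pool.Agent.Helper37.KD.St.D3
import Pool.Agent.Helper37.KD.St.D4
import Pool.Agent.Helper37.KD.St.D7
import Pool.Agent.Helper37.KD.St.E5
import Pool.Agent.Helper37.KD.St.G4
import Pool.Agent.Helper37.KD.St.H3
import Pool.Agent.Helper37.KD.St.H4
import Pool.Agent.Helper37.KD.St.H6
import Pool.Agent.Helper37.KD.St.S1
import Pool.Agent.Helper37.KD.St.S2

/-! KD Part I, piece S3: the averaged entropy (helper37; sped up by helper33) -/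

namespace KD
namespace I.S3

open Finset

theorem aux_eta {A ε K : ℝ} (hε : 0 ≤ ε) (hK : 0 ≤ K + 1) :
    A * ε * (K + 1) ≤ ε * ((A + 1) * (K + 1)) := by
  have : 0 ≤ ε * (K + 1) := by positivity
  linarith

theorem aux_h4 {K ε t A : ℝ} (hK : 0 ≤ K) (hε : 0 ≤ ε) (hA : 0 ≤ A)
    (h : ε * ((A + 1) * (K + 1)) ≤ 1) (ht : 0 ≤ t) (hε1 : ε ≤ 1) : K * (t * ε ^ 2) ≤ t := by
  have h5 : K * ε ≤ ε * ((A + 1) * (K + 1)) := by
    have : K ≤ (A + 1) * (K + 1) := by nlinarith
    calc K * ε ≤ ((A + 1) * (K + 1)) * ε := mul_le_mul_of_nonneg_right this hε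
      _ = _ := by ring
  have h6 : K * ε * ε ≤ 1 * 1 := mul_le_mul (h5.trans h) hε1 hε (by norm_num)
  calc K * (t * ε ^ 2) = (K * ε * ε) * t := by ring
    _ ≤ (1 * 1) * t := mul_le_mul_of_nonneg_right h6 ht
    _ = t := by ring

theorem aux_h6 {D x u v C : ℝ} (hx : 0 ≤ x) (h7 : 4 * D ≤ C) (h8 : u + v ≤ C) :
    4 * D * x + u + v ≤ C * (1 + x) := by
  have := mul_le_mul_of_nonneg_right h7 hx
  linarith

theorem log_vol {s : ℝ} (hs : 0 < s) (hs1 : s < 1) {M ε : ℝ} (hM : 1 ≤ M) (hε : 0 < ε) (d k K : ℕ)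
    (hk : k ≤ K) :
    Real.log ((2 ^ K) ^ d * (Rad s M ε K) ^ d) - Real.log ((2 ^ k) ^ d * (Rad s M ε k) ^ d) ≤
      4 * d * (K - k) := by
  have hMε : 0 < M / ε := by positivity
  have hlog : ∀ j : ℕ, Real.log ((2 ^ j) ^ d * (Rad s M ε j) ^ d) =
      d * ((2 + 2 * s) * j * Real.log 2 + Real.log (M / ε)) := by
    intro j
    have ht := tim_pos s j
    unfold Rad
    rw [Real.log_mul (by positivity) (by positivity), Real.log_pow, Real.log_pow, Real.log_pow,
      Real.log_mul (by positivity) (by positivity), Real.log_mul (by positivity) (by positivity),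
      Real.log_pow]
    have : Real.log (tim s j) = 2 * s * j * Real.log 2 := by
      unfold tim; rw [Real.log_rpow two_pos]
    rw [this]; ring
  rw [hlog, hlog]
  have h2 : Real.log 2 ≤ 1 := by
    have := Real.log_two_lt_d9; linarith only [hs, hs1, this]
  have h20 : 0 < Real.log 2 := Real.log_pos one_lt_two
  have hkK : (k : ℝ) ≤ K := by exact_mod_cast hk
  have hd : (0 : ℝ) ≤ d := Nat.cast_nonneg d
  have e : (d : ℝ) * ((2 + 2 * s) * K * Real.log 2 + Real.log (M / ε)) -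
      d * ((2 + 2 * s) * k * Real.log 2 + Real.log (M / ε)) =
      d * (K - k) * ((2 + 2 * s) * Real.log 2) := by ring
  rw [e]
  have h3 : (2 + 2 * s) * Real.log 2 ≤ 4 := by nlinarith only [hs1, h2, hs]
  have h4 : 0 ≤ (d : ℝ) * (K - k) := mul_nonneg hd (by linarith)
  calc _ ≤ (d : ℝ) * (K - k) * 4 := mul_le_mul_of_nonneg_left h3 h4
    _ = _ := by ring

theorem first_moment {d : ℕ} {s c0 C0 C1 Cm : ℝ} (E : Env d s c0 C0 C1) {μ : E.G → ℝ} (hμ : IsP μ)
    {k : ℕ} (hk : k ≤ E.K + 1) (h : ∑ z, lev E.q μ k z * E.nm E.K z ^ 2 ≤ Cm) :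
    ∑ z, lev E.q μ k z * nrm (2 ^ E.K) (E.R E.K) z ≤ 1 + Cm := by
  have h1 := E.u_sum hμ hk
  calc ∑ z, lev E.q μ k z * nrm (2 ^ E.K) (E.R E.K) z
      ≤ ∑ z, (lev E.q μ k z + lev E.q μ k z * E.nm E.K z ^ 2) := by
        refine Finset.sum_le_sum (fun z _ => ?_)
        have h0 := E.u_nonneg hμ hk z
        have : nrm (2 ^ E.K) (E.R E.K) z ≤ 1 + E.nm E.K z ^ 2 := by
          unfold Env.nm
          nlinarith only [sq_nonneg (nrm (2 ^ E.K) (E.R E.K) z - 1)]
        calc _ ≤ lev E.q μ k z * (1 + E.nm E.K z ^ 2) := mul_le_mul_of_nonneg_left this h0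
          _ = _ := by ring
    _ = 1 + ∑ z, lev E.q μ k z * E.nm E.K z ^ 2 := by rw [Finset.sum_add_distrib, h1]
    _ ≤ _ := by linarith

theorem entropy_average (d : ℕ) (hd : 1 ≤ d) (s lam Lam M0 c0 C0 C1 : ℝ) (hs : 0 < s) (hs1 : s < 1)
    (hlam : 0 < lam) (hLam : lam ≤ Lam) (hM0 : 0 ≤ M0) (hc0 : 0 < c0) (hC0 : 0 < C0) (hC1 : 0 < C1) :
    ∃ M Ce : ℝ, 1 ≤ M ∧ 0 < Ce ∧ ∀ K : ℕ, ∃ ε0 : ℝ, 0 < ε0 ∧
    ∀ (E : Env d s c0 C0 C1), E.K = K → E.M = M → E.ε ≤ ε0 →
    ∀ (a : ℕ → ℕ → E.Θ → E.G → ℝ), (∀ n, E.S.Coef lam Lam M0 (a n)) →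
    ∀ T : ℕ, (T : ℝ) * E.ε ≤ tim s K →
      E.ε / tim s K * ∑ n ∈ range T, (Ht (lev E.q (E.chain a n) 1)
        + Real.log ((2 ^ K) ^ d * E.R K ^ d)) ≤ Ce := by
  obtain ⟨Ca, hCa, HA⟩ := energy_average s lam Lam c0 C0 C1 d hd hs hs1 hlam hLam hC0 hC1
  obtain ⟨Cx, hCx, HX⟩ := x_average s lam Lam c0 C0 C1 d hd hs hs1 hlam hLam hc0 hC0 hC1
  obtain ⟨Cy0, hCy0, HY0⟩ := Yk_zero_le s c0 C0 C1 d
  obtain ⟨Cy, hCy, HY⟩ := Yk_succ_le s c0 C0 C1 d hd hs hs1 hc0
  obtain ⟨Cce, hCce, HCE⟩ := coef_error s lam Lam M0 c0 C0 C1 d hd hs hs1 hlam hLam hM0 hC0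
  obtain ⟨Cup, hCup, HUP⟩ := entropy_upper s c0 C0 C1 d hs
  obtain ⟨Cm, hCm, HM⟩ := level_moment s lam Lam c0 C0 C1 d hd hs hs1 hlam hLam hC0 hC1
  obtain ⟨Clo, hClo, HLO⟩ := entropy_lower d (1 + Cm)
  obtain ⟨Ci, hCi, HI⟩ := entropy_incr s c0 C0 C1 d hd hs hs1 hc0
  obtain ⟨C, hCdef⟩ : ∃ C : ℝ, C = Ca + Cx + 2 * Cy0 + Cy + 2 * Cce + Cup + Clo + 4 * d + 4 := ⟨_, rfl⟩
  have hd0 : (0 : ℝ) ≤ d := Nat.cast_nonneg d
  have hC : 0 < C := by rw [hCdef]; positivity
  obtain ⟨M, C', hM, hC', HS⟩ := sum_lemma s C lam hs hs1 hC hlam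
  refine ⟨M, Cup + Ci * (1 + C'), hM, by positivity, ?_⟩
  intro K
  obtain ⟨CKa, εa, hCKa, hεa, HA⟩ := HA K
  obtain ⟨CKx, εx, hCKx, hεx, HX⟩ := HX M K hM
  obtain ⟨εm, hεm, HM⟩ := HM K
  obtain ⟨εp, hεp, HP⟩ := chain_isP s lam Lam c0 C0 C1 d hs hlam hLam hC0 K
  refine ⟨min (min εa εx) (min (min εm εp) (1 / ((CKa + CKx + 1) * (K + 1)))), by positivity, ?_⟩
  intro E hEK hEM hE a ha T hT
  have hEa : E.ε ≤ εa := hE.trans ((min_le_left _ _).trans (min_le_left _ _))
  have hEx : E.ε ≤ εx := hE.trans ((min_le_left _ _).trans (min_le_right _ _))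
  have hEm : E.ε ≤ εm := hE.trans ((min_le_right _ _).trans ((min_le_left _ _).trans (min_le_left _ _)))
  have hEp : E.ε ≤ εp := hE.trans ((min_le_right _ _).trans ((min_le_left _ _).trans (min_le_right _ _)))
  have hEη : E.ε ≤ 1 / ((CKa + CKx + 1) * (K + 1)) :=
    hE.trans ((min_le_right _ _).trans (min_le_right _ _))
  have hε := E.hε
  have hε8 := E.hε1
  have htK := one_le_tim hs K
  have htK0 : 0 < tim s K := tim_pos s K
  have hP : ∀ n, IsP (E.chain a n) := HP E hEK hEp M0 a ha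
  have hT1 : ((T + 1 : ℕ) : ℝ) * E.ε ≤ 2 * tim s K := by push_cast; linarith
  have hK1 : (0 : ℝ) < K + 1 := by positivity
  -- η
  obtain ⟨η, hη⟩ : ∃ η : ℝ, η = (CKa + CKx) * E.ε := ⟨_, rfl⟩
  have hη0 : 0 ≤ η := by rw [hη]; positivity
  have hεK : E.ε * ((CKa + CKx + 1) * (K + 1)) ≤ 1 := by
    have := mul_le_mul_of_nonneg_right hEη (by positivity : (0:ℝ) ≤ (CKa + CKx + 1) * (K + 1))
    rwa [one_div, inv_mul_cancel₀ (by positivity)] at this
  have hηK : η * (K + 1) ≤ 1 := by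
    rw [hη]
    exact (aux_eta hε.le hK1.le).trans hεK
  -- nonnegativity
  have hI0 : ∀ k ≤ K, ∀ n, 0 ≤ E.Ik (E.chain a n) k := fun k hk n => Ik_nonneg E (hP n) (by omega)
  have hE0 : ∀ k ≤ K, ∀ n, 0 ≤ E.Ek (a n) (E.chain a n) k :=
    fun k hk n => Ek_nonneg E (a n) (hP n) (by omega)
  have hX0 : ∀ k ≤ K, ∀ n, 0 ≤ E.Xk (E.chain a n) k := fun k hk n => Xk_nonneg E _ (by omega)
  have hY0 : ∀ k ≤ K, ∀ n, 0 ≤ E.Yk (E.chain a n) k := fun k hk n => Yk_nonneg E _ (by omega)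
  obtain ⟨aI, haI⟩ : ∃ f : ℕ → ℝ, ∀ k, f k = E.ε * ∑ n ∈ range (T + 1), E.Ik (E.chain a n) k :=
    ⟨_, fun k => rfl⟩
  obtain ⟨aE, haE⟩ : ∃ f : ℕ → ℝ, ∀ k, f k = E.ε * ∑ n ∈ range (T + 1), E.Ek (a n) (E.chain a n) k :=
    ⟨_, fun k => rfl⟩
  obtain ⟨aX, haX⟩ : ∃ f : ℕ → ℝ, ∀ k, f k = E.ε * ∑ n ∈ range (T + 1), E.Xk (E.chain a n) k :=
    ⟨_, fun k => rfl⟩
  obtain ⟨ay, hay⟩ : ∃ f : ℕ → ℝ, ∀ k, f k = E.ε * ∑ n ∈ range (T + 1), E.Yk (E.chain a n) k / (2 ^ k) ^ 2 :=
    ⟨_, fun k => rfl⟩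
  have hsum := HS K aI aE aX ay
    (fun k => Ht (lev E.q (E.chain a 0) (k + 1)) - Ht (lev E.q (E.chain a T) (k + 1))) η hη0 hηK
    (fun k hk => by rw [haI]; exact mul_nonneg hε.le (Finset.sum_nonneg fun n _ => hI0 k hk n))
    (fun k hk => by rw [haE]; exact mul_nonneg hε.le (Finset.sum_nonneg fun n _ => hE0 k hk n))
    (fun k hk => by rw [haX]; exact mul_nonneg hε.le (Finset.sum_nonneg fun n _ => hX0 k hk n))
    (fun k hk => by
      rw [hay]; exact mul_nonneg hε.le (Finset.sum_nonneg fun n _ => div_nonneg (hY0 k hk n) (by positivity)))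
    ?_ ?_ ?_ ?_ ?_ ?_ ?_
  · -- conclusion
    have hmain : ∀ n ∈ range T, Ht (lev E.q (E.chain a n) 1) + Real.log ((2 ^ K) ^ d * E.R K ^ d) ≤
        Cup + Ci * (∑ k ∈ range K, (tim s k * E.Ik (E.chain a n) k + E.Xk (E.chain a n) k + E.ε ^ 2)) := by
      intro n _
      have htel : ∀ m ≤ K, Ht (lev E.q (E.chain a n) 1) ≤ Ht (lev E.q (E.chain a n) (m + 1)) +
          Ci * (∑ k ∈ range m, (tim s k * E.Ik (E.chain a n) k + E.Xk (E.chain a n) k + E.ε ^ 2)) := by
        intro m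
        induction m with
        | zero => intro _; simp
        | succ m ih =>
            intro hm
            have h1 := ih (by omega)
            have h2 := HI E (E.chain a n) (hP n) m (by omega)
            rw [Finset.sum_range_succ, mul_add]
            linarith
      have h1 := htel K le_rfl
      have h2 := HUP E (E.chain a n) (hP n) K (by omega)
      linarith
    have hsum2 : ∑ n ∈ range T, (Ht (lev E.q (E.chain a n) 1) + Real.log ((2 ^ K) ^ d * E.R K ^ d)) ≤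
        ∑ n ∈ range T, (Cup + Ci * (∑ k ∈ range K,
          (tim s k * E.Ik (E.chain a n) k + E.Xk (E.chain a n) k + E.ε ^ 2))) :=
      Finset.sum_le_sum hmain
    have hsum3 : E.ε * ∑ n ∈ range T, (∑ k ∈ range K,
          (tim s k * E.Ik (E.chain a n) k + E.Xk (E.chain a n) k + E.ε ^ 2)) ≤
        (C' + 1) * tim s K := by
      rw [Finset.sum_comm, Finset.mul_sum]
      have h1 : ∀ k ∈ range K, E.ε * ∑ n ∈ range T,
          (tim s k * E.Ik (E.chain a n) k + E.Xk (E.chain a n) k + E.ε ^ 2) ≤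
          tim s k * aI k + aX k + tim s K * E.ε ^ 2 := by
        intro k hk
        have hkK : k ≤ K := (Finset.mem_range.1 hk).le
        have i1 : ∑ n ∈ range T, E.Ik (E.chain a n) k ≤ ∑ n ∈ range (T + 1), E.Ik (E.chain a n) k := by
          rw [Finset.sum_range_succ]; linarith [hI0 k hkK T]
        have i2 : ∑ n ∈ range T, E.Xk (E.chain a n) k ≤ ∑ n ∈ range (T + 1), E.Xk (E.chain a n) k := by
          rw [Finset.sum_range_succ]; linarith [hX0 k hkK T]
        rw [Finset.sum_add_distrib, Finset.sum_add_distrib, ← Finset.mul_sum, haI, haX,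
          Finset.sum_const, Finset.card_range, nsmul_eq_mul]
        have j1 := mul_le_mul_of_nonneg_left i1 (mul_nonneg hε.le (tim_pos s k).le)
        have j2 := mul_le_mul_of_nonneg_left i2 hε.le
        have j3 : (T : ℝ) * E.ε * E.ε ^ 2 ≤ tim s K * E.ε ^ 2 :=
          mul_le_mul_of_nonneg_right hT (sq_nonneg E.ε)
        calc E.ε * (tim s k * ∑ n ∈ range T, E.Ik (E.chain a n) k + ∑ n ∈ range T, E.Xk (E.chain a n) k
              + T * E.ε ^ 2)
            = E.ε * tim s k * ∑ n ∈ range T, E.Ik (E.chain a n) k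
              + E.ε * ∑ n ∈ range T, E.Xk (E.chain a n) k + T * E.ε * E.ε ^ 2 := by ring
          _ ≤ E.ε * tim s k * ∑ n ∈ range (T + 1), E.Ik (E.chain a n) k
              + E.ε * ∑ n ∈ range (T + 1), E.Xk (E.chain a n) k + tim s K * E.ε ^ 2 :=
              add_le_add (add_le_add j1 j2) j3
          _ = _ := by ring
      refine (Finset.sum_le_sum h1).trans ?_
      rw [Finset.sum_add_distrib, Finset.sum_add_distrib, Finset.sum_const, Finset.card_range,
        nsmul_eq_mul]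
      have h2 : ∑ k ∈ range K, tim s k * aI k ≤ ∑ k ∈ range (K + 1), tim s k * aI k := by
        rw [Finset.sum_range_succ]
        have : 0 ≤ aI K := by
          rw [haI]; exact mul_nonneg hε.le (Finset.sum_nonneg fun n _ => hI0 K le_rfl n)
        have := mul_nonneg htK0.le this
        linarith
      have h3 : ∑ k ∈ range K, aX k ≤ ∑ k ∈ range (K + 1), aX k := by
        rw [Finset.sum_range_succ]
        have : 0 ≤ aX K := by
          rw [haX]; exact mul_nonneg hε.le (Finset.sum_nonneg fun n _ => hX0 K le_rfl n)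
        linarith
      have h4 : (K : ℝ) * (tim s K * E.ε ^ 2) ≤ tim s K := by
        exact aux_h4 (Nat.cast_nonneg K) hε.le (by positivity) hεK htK0.le (by linarith)
      linarith
    have hcombine : E.ε * ∑ n ∈ range T, (Ht (lev E.q (E.chain a n) 1)
        + Real.log ((2 ^ K) ^ d * E.R K ^ d)) ≤ (Cup + Ci * (1 + C')) * tim s K := by
      have h1 := mul_le_mul_of_nonneg_left hsum2 hε.le
      refine h1.trans ?_
      rw [Finset.sum_add_distrib, Finset.sum_const, Finset.card_range, nsmul_eq_mul, ← Finset.mul_sum]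
      have h2 := mul_le_mul_of_nonneg_left hsum3 hCi.le
      have h3 := mul_le_mul_of_nonneg_left hT hCup.le
      calc E.ε * ((T : ℝ) * Cup + Ci * ∑ n ∈ range T, ∑ k ∈ range K,
            (tim s k * E.Ik (E.chain a n) k + E.Xk (E.chain a n) k + E.ε ^ 2))
          = Cup * (T * E.ε) + Ci * (E.ε * ∑ n ∈ range T, ∑ k ∈ range K,
            (tim s k * E.Ik (E.chain a n) k + E.Xk (E.chain a n) k + E.ε ^ 2)) := by ring
        _ ≤ Cup * tim s K + Ci * ((C' + 1) * tim s K) := add_le_add h3 h2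
        _ = _ := by ring
    calc E.ε / tim s K * ∑ n ∈ range T, (Ht (lev E.q (E.chain a n) 1)
          + Real.log ((2 ^ K) ^ d * E.R K ^ d))
        = (E.ε * ∑ n ∈ range T, (Ht (lev E.q (E.chain a n) 1)
          + Real.log ((2 ^ K) ^ d * E.R K ^ d))) / tim s K := by ring
      _ ≤ ((Cup + Ci * (1 + C')) * tim s K) / tim s K := by gcongr
      _ = _ := by field_simp
  · -- h1
    intro k hk
    have h := HA E hEK hEa M0 a ha T hT k hk
    rw [hEM] at h
    rw [haI, haE, haX]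
    have e1 : ∀ j, ay j = E.ε * ∑ n ∈ range (T + 1), E.Yk (E.chain a n) j / (2 ^ j) ^ 2 := hay
    have hmono : Ca / M / tim s k * ∑ j ∈ range (k + 1), 2 ^ j / 2 ^ k *
            √((E.ε * ∑ n ∈ range (T + 1), E.Yk (E.chain a n) j / (2 ^ j) ^ 2)
              * (E.ε * ∑ n ∈ range (T + 1), E.Xk (E.chain a n) k)) ≤
        C / M / tim s k * ∑ j ∈ range (k + 1), 2 ^ j / 2 ^ k *
            √(ay j * (E.ε * ∑ n ∈ range (T + 1), E.Xk (E.chain a n) k)) := by
      simp only [e1]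
      have hM0' : 0 < M := by linarith
      have : Ca / M / tim s k ≤ C / M / tim s k := by
        have h0 := tim_pos s k
        have : Ca ≤ C := by rw [hCdef]; linarith
        gcongr
      exact mul_le_mul_of_nonneg_right this (Finset.sum_nonneg fun j _ => by positivity)
    have hη' : CKa * E.ε ≤ η := by
      rw [hη]; exact mul_le_mul_of_nonneg_right (by linarith only [hCKx]) hε.le
    linarith only [h, hmono, hη']
  · -- h5
    intro k hk
    have h1 := HUP E (E.chain a 0) (hP 0) k (by omega)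
    have hNK : (2 : ℝ) ^ E.K ≤ E.N := by
      have h := E.hN
      have h2 : 2 ^ E.K ≤ E.N := (Nat.pow_le_pow_right (by norm_num) (by omega)).trans h
      exact_mod_cast h2
    have hR1 : 1 ≤ E.R E.K := by
      unfold Env.R Rad
      have h1 : 1 ≤ E.M / E.ε := by
        rw [le_div_iff₀ hε]; linarith [E.hM]
      have h2 : (1 : ℝ) ≤ 2 ^ E.K := one_le_pow₀ one_le_two
      have h3 := one_le_tim hs E.K
      have h4 : 1 ≤ E.M / E.ε * 2 ^ E.K := one_le_mul_of_one_le_of_one_le h1 h2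
      exact one_le_mul_of_one_le_of_one_le h4 h3
    have h2 := HLO E.N (2 ^ E.K) (E.R E.K) (one_le_pow₀ one_le_two) hR1 hNK E.hNR
      (lev E.q (E.chain a T) (k + 1)) ⟨fun z => E.u_nonneg (hP T) (by omega) z, E.u_sum (hP T) (by omega)⟩
      (first_moment E (hP T) (by omega) (by
        have := HM E hEK hEm M0 a ha T hT (k + 1) (by omega)
        rw [← hEK] at this; exact this))
    have h3 := log_vol hs hs1 E.hM hε d k K hk
    have h4 : E.R E.K = Rad s E.M E.ε K := by unfold Env.R; rw [hEK]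
    rw [h4, hEK] at h2
    have h5 : E.R k = Rad s E.M E.ε k := rfl
    rw [h5] at h1
    have hkK : (k : ℝ) ≤ K := by exact_mod_cast hk
    have h6 : 4 * (d : ℝ) * (K - k) + Cup + Clo ≤ C * (1 + (K - k)) := by
      have : 0 ≤ (K : ℝ) - k := by linarith
      have h7 : 4 * (d : ℝ) ≤ C := by rw [hCdef]; linarith only [hCa, hCx, hCy0, hCy, hCce, hCup, hClo]
      have h8 : Cup + Clo ≤ C := by rw [hCdef]; linarith only [hCa, hCx, hCy0, hCy, hCce]
      exact aux_h6 this h7 h8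
    show Ht (lev E.q (E.chain a 0) (k + 1)) - Ht (lev E.q (E.chain a T) (k + 1)) ≤ C * (1 + (K - k))
    linarith
  · -- y 0
    rw [hay]
    have h1 : ∑ n ∈ range (T + 1), E.Yk (E.chain a n) 0 / (2 ^ 0) ^ 2 ≤ ((T + 1 : ℕ) : ℝ) * Cy0 := by
      calc _ ≤ ∑ n ∈ range (T + 1), Cy0 := Finset.sum_le_sum fun n _ => by
            have := HY0 E (E.chain a n) (hP n); simpa using this
        _ = _ := by rw [Finset.sum_const, Finset.card_range, nsmul_eq_mul]
    have h2 := mul_le_mul_of_nonneg_left h1 hε.le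
    have h3 := mul_le_mul_of_nonneg_right hT1 hCy0.le
    have h4 : 2 * Cy0 ≤ C := by rw [hCdef]; linarith only [hCa, hCx, hCy, hCce, hCup, hClo]
    have h5 := mul_le_mul_of_nonneg_right h4 htK0.le
    have e : E.ε * (((T + 1 : ℕ) : ℝ) * Cy0) = ((T + 1 : ℕ) : ℝ) * E.ε * Cy0 := by ring
    rw [e] at h2
    linarith
  · -- y (k+1)
    intro k hk
    rw [hay, haI]
    have h1 : ∑ n ∈ range (T + 1), E.Yk (E.chain a n) (k + 1) / (2 ^ (k + 1)) ^ 2 ≤
        ∑ n ∈ range (T + 1), Cy * tim s k * E.Ik (E.chain a n) k := by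
      refine Finset.sum_le_sum fun n _ => ?_
      have := HY E (E.chain a n) (hP n) k (by omega)
      rw [div_le_iff₀ (by positivity)]
      calc _ ≤ _ := this
        _ = _ := by ring
    rw [← Finset.mul_sum] at h1
    have h2 := mul_le_mul_of_nonneg_left h1 hε.le
    have h3 : 0 ≤ E.ε * ∑ n ∈ range (T + 1), E.Ik (E.chain a n) k :=
      mul_nonneg hε.le (Finset.sum_nonneg fun n _ => hI0 k (by omega) n)
    have h4 : Cy ≤ C := by rw [hCdef]; linarith
    have h5 := tim_pos s k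
    calc _ ≤ _ := h2
      _ = Cy * tim s k * (E.ε * ∑ n ∈ range (T + 1), E.Ik (E.chain a n) k) := by ring
      _ ≤ _ := by gcongr
  · -- X 0
    rw [haX]
    have h1 : ∑ n ∈ range (T + 1), E.Xk (E.chain a n) 0 ≤ ((T + 1 : ℕ) : ℝ) * 2 := by
      calc _ ≤ ∑ n ∈ range (T + 1), (2 : ℝ) := Finset.sum_le_sum fun n _ => Xk_le_two E (hP n) (by omega)
        _ = _ := by rw [Finset.sum_const, Finset.card_range, nsmul_eq_mul]
    have h2 := mul_le_mul_of_nonneg_left h1 hε.le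
    have h4 : 4 ≤ C := by rw [hCdef]; linarith only [hCa, hCx, hCy0, hCy, hCce, hCup, hClo]
    have h5 := mul_le_mul_of_nonneg_right h4 htK0.le
    have e : E.ε * (((T + 1 : ℕ) : ℝ) * 2) = ((T + 1 : ℕ) : ℝ) * E.ε * 2 := by ring
    rw [e] at h2
    linarith
  · -- X (k+1)
    intro k hk
    have h := HX E hEK hEM hEx M0 a ha (T + 1) (by exact_mod_cast hT1) k hk
    rw [haX (k + 1)]
    refine h.trans ?_
    have hM0' : 0 < M := by linarith
    have hCxC : Cx ≤ C := by rw [hCdef]; linarith only [hCa, hCy0, hCy, hCce, hCup, hClo]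
    have htk := tim_pos s k
    have e1 : E.ε * ∑ n ∈ range (T + 1), (E.Ik (E.chain a n) k + E.Ek (a n) (E.chain a n) k
            + if k = 0 then 0 else E.Ik (E.chain a n) (k - 1) + E.Ek (a n) (E.chain a n) (k - 1)) =
        aI k + aE k + if k = 0 then 0 else aI (k - 1) + aE (k - 1) := by
      by_cases h0 : k = 0
      · simp only [h0, if_true, add_zero, haI, haE, Finset.sum_add_distrib, mul_add]
      · simp only [h0, if_false, haI, haE, Finset.sum_add_distrib, mul_add]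
    have e2 : 0 ≤ aI k + aE k + if k = 0 then 0 else aI (k - 1) + aE (k - 1) := by
      rw [← e1]
      refine mul_nonneg hε.le (Finset.sum_nonneg fun n _ => ?_)
      have := hI0 k (by omega) n
      have := hE0 k (by omega) n
      split_ifs
      · linarith
      · have := hI0 (k - 1) (by omega) n
        have := hE0 (k - 1) (by omega) n
        linarith
    have e3 : 0 ≤ aX k := by
      rw [haX]; exact mul_nonneg hε.le (Finset.sum_nonneg fun n _ => hX0 k (by omega) n)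
    have e4 : 0 ≤ ∑ j ∈ range (k + 1), 2 ^ j / 2 ^ k * ay j := by
      refine Finset.sum_nonneg fun j hj => ?_
      have hjk := Finset.mem_range.1 hj
      have : 0 ≤ ay j := by
        rw [hay]; exact mul_nonneg hε.le (Finset.sum_nonneg fun n _ => div_nonneg (hY0 j (by omega) n) (by positivity))
      positivity
    have e5 : ∑ j ∈ range (k + 1), 2 ^ j / 2 ^ k *
            (E.ε * ∑ n ∈ range (T + 1), E.Yk (E.chain a n) j / (2 ^ j) ^ 2) =
        ∑ j ∈ range (k + 1), 2 ^ j / 2 ^ k * ay j := by simp only [hay]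
    rw [e1, e5, ← haX k]
    have t1 : Cx * M * tim s k * (aI k + aE k + if k = 0 then 0 else aI (k - 1) + aE (k - 1)) ≤
        C * M * tim s k * (aI k + aE k + if k = 0 then 0 else aI (k - 1) + aE (k - 1)) :=
      mul_le_mul_of_nonneg_right (by gcongr) e2
    have t2 : Cx / M * aX k ≤ C / M * aX k := mul_le_mul_of_nonneg_right (by gcongr) e3
    have t3 : Cx / M * ∑ j ∈ range (k + 1), 2 ^ j / 2 ^ k * ay j ≤
        C / M * ∑ j ∈ range (k + 1), 2 ^ j / 2 ^ k * ay j := mul_le_mul_of_nonneg_right (by gcongr) e4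
    have t4 : Cx * √M * tim s k ≤ C * √M * tim s k := by gcongr
    have t5 : CKx * E.ε ≤ η := by
      rw [hη]; exact mul_le_mul_of_nonneg_right (by linarith only [hCKa]) hε.le
    linarith only [t1, t2, t3, t4, t5]
  · -- E
    have h1 : ∑ k ∈ range (K + 1), tim s k * aE k =
        E.ε * ∑ n ∈ range (T + 1), ∑ k ∈ range (K + 1), tim s k * E.Ek (a n) (E.chain a n) k := by
      simp only [haE]
      rw [Finset.sum_comm, Finset.mul_sum]
      refine Finset.sum_congr rfl fun k _ => ?_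
      rw [← Finset.mul_sum]; ring
    rw [h1]
    have h2 : ∑ n ∈ range (T + 1), ∑ k ∈ range (K + 1), tim s k * E.Ek (a n) (E.chain a n) k ≤
        ((T + 1 : ℕ) : ℝ) * Cce := by
      calc _ ≤ ∑ n ∈ range (T + 1), Cce := Finset.sum_le_sum fun n _ => by
            have := HCE E (a n) (ha n) (E.chain a n) (hP n)
            rw [hEK] at this; exact this
        _ = _ := by rw [Finset.sum_const, Finset.card_range, nsmul_eq_mul]
    have h3 := mul_le_mul_of_nonneg_left h2 hε.le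
    have h4 := mul_le_mul_of_nonneg_right hT1 hCce.le
    have h5 : 2 * Cce ≤ C := by rw [hCdef]; linarith
    have h6 := mul_le_mul_of_nonneg_right h5 htK0.le
    have e : E.ε * (((T + 1 : ℕ) : ℝ) * Cce) = ((T + 1 : ℕ) : ℝ) * E.ε * Cce := by ring
    rw [e] at h3
    linarith

end I.S3
end KD
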